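import Pool.Agent.H60.BC.ThmN

/-! Compactness: the smallest b-divisor, the largest value of a linear function, closed cones. -/

namespace Pool.Agent.H54.XN

variable {r m : ℕ}

namespace BCl

variable (B : BCl r m)

theorem cpt (x : Fin r → ℝ) :
    IsCompact {v : B.V | B.Nef v ∧ B.tr v = x ∧ ∀ E, 0 ≤ B.o v E} := by
  have h := B.compact {x} 0 isCompact_singleton
  have h0 : ∀ E, B.o 0 E = 0 := fun E => by rw [← oL_apply, map_zero]
  simpa only [Set.mem_singleton_iff, h0] using h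

/-- The set of the effective b-divisors `y` for which `x - y` is nef is compact. -/
theorem most (x : Fin r → ℝ) (hx : B.Nef (B.pb x)) (Z : B.D → Prop) (S : Finset B.D) (g : B.D → ℝ) :
    ∃ v, B.Nef v ∧ B.tr v = x ∧ (∀ E, 0 ≤ B.o v E) ∧ (∀ E, Z E → B.o v E = 0) ∧
      ∀ w, B.Nef w → B.tr w = x → (∀ E, 0 ≤ B.o w E) → (∀ E, Z E → B.o w E = 0) →
        ∑ E ∈ S, g E * B.o w E ≤ ∑ E ∈ S, g E * B.o v E := by
  have hc : IsClosed {v : B.V | ∀ E, Z E → B.o v E = 0} := by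
    simp only [Set.setOf_forall]
    exact isClosed_iInter fun E => isClosed_iInter fun _ =>
      isClosed_eq (B.cont_o E) continuous_const
  have hK := (B.cpt x).inter_right hc
  have h0 : ∀ E, B.o (B.pb x) E = 0 := fun E => rfl
  obtain ⟨v, ⟨⟨h1, h2, h3⟩, h4⟩, h5⟩ := hK.exists_isMaxOn
    ⟨B.pb x, ⟨hx, rfl, fun E => (h0 E).ge⟩, fun E _ => h0 E⟩
    (f := fun v => ∑ E ∈ S, g E * B.o v E)
    (continuous_finset_sum _ fun E _ => continuous_const.mul (B.cont_o E)).continuousOn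
  exact ⟨v, h1, h2, h3, h4, fun w a b c d => h5 ⟨⟨a, b, c⟩, d⟩⟩

/-- the pseudoeffective cone is closed -/
theorem closed (v : B.V)
    (h : ∀ t : ℝ, 0 < t → ∃ w, B.Nef w ∧ B.tr w = B.tr v + t • B.A ∧ ∀ E, B.o v E ≤ B.o w E) :
    ∃ w, B.Nef w ∧ B.tr w = B.tr v ∧ ∀ E, B.o v E ≤ B.o w E := by
  set f : ℝ → (Fin r → ℝ) := fun t => B.tr v + t • B.A with hf
  have hfc : Continuous f := continuous_const.add (continuous_id.smul continuous_const)
  let K : ℕ → Set B.V := fun k => {u : B.V | B.Nef u ∧ B.tr u ∈ f '' Set.Icc 0 (1 / ((k : ℝ) + 1)) ∧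
    ∀ E, B.o v E ≤ B.o u E}
  have hKc : ∀ k, IsCompact (K k) := fun k => B.compact _ v (isCompact_Icc.image hfc)
  have hne : ∀ k, (K k).Nonempty := fun k => by
    have hk : (0 : ℝ) < 1 / ((k : ℝ) + 1) := by positivity
    obtain ⟨w, h1, h2, h3⟩ := h _ hk
    exact ⟨w, h1, ⟨_, ⟨hk.le, le_rfl⟩, h2.symm⟩, h3⟩
  have hdec : ∀ k, K (k + 1) ⊆ K k := fun k u hu => by
    obtain ⟨h1, ⟨t, ⟨ht, ht'⟩, h2⟩, h3⟩ := hu
    refine ⟨h1, ⟨t, ⟨ht, ht'.trans ?_⟩, h2⟩, h3⟩
    have hk : (0 : ℝ) < (k : ℝ) + 1 := by positivity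
    exact one_div_le_one_div_of_le hk (by push_cast; linarith)
  obtain ⟨u, hu⟩ := IsCompact.nonempty_iInter_of_sequence_nonempty_isCompact_isClosed K hdec hne
    (hKc 0) fun k => (hKc k).isClosed
  have hu' : ∀ k, u ∈ K k := fun k => Set.mem_iInter.mp hu k
  refine ⟨u, (hu' 0).1, ?_, (hu' 0).2.2⟩
  funext i
  have h1 : ∀ k : ℕ, |B.tr u i - B.tr v i| ≤ 1 / ((k : ℝ) + 1) * |B.A i| := fun k => by
    obtain ⟨-, ⟨t, ⟨ht, ht'⟩, h2⟩, -⟩ := hu' k
    have h3 : B.tr u i = B.tr v i + t * B.A i := by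
      rw [← h2]
      rfl
    rw [h3, add_sub_cancel_left, abs_mul, abs_of_nonneg ht]
    exact mul_le_mul_of_nonneg_right ht' (abs_nonneg _)
  have h2 : Filter.Tendsto (fun k : ℕ => 1 / ((k : ℝ) + 1) * |B.A i|) Filter.atTop (nhds 0) := by
    have h := tendsto_one_div_add_atTop_nhds_zero_nat (𝕜 := ℝ)
    simpa using h.mul_const |B.A i|
  have h3 := ge_of_tendsto' h2 h1
  exact sub_eq_zero.mp (abs_eq_zero.mp (le_antisymm h3 (abs_nonneg _)))

/-- a relation between the classes of prime divisors and some other coefficients -/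
theorem exists_rel {F : B.D → B.V} (S T : Finset B.D) (h : r + T.card < S.card) :
    ∃ c : B.D → ℝ, (∃ G ∈ S, c G ≠ 0) ∧ (∑ G ∈ S, c G • B.cl G) = 0 ∧
      ∀ E ∈ T, B.o (∑ G ∈ S, c G • F G) E = 0 := by
  classical
  let φ : (S → ℝ) →ₗ[ℝ] (Fin r → ℝ) × (T → ℝ) :=
    { toFun := fun c => (∑ G : S, c G • B.cl G, fun E => ∑ G : S, c G * B.o (F G) E)
      map_add' := fun a b => by
        refine Prod.ext ?_ (funext fun E => ?_)
        · simp [add_smul, Finset.sum_add_distrib]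
        · simp [add_mul, Finset.sum_add_distrib]
      map_smul' := fun t a => by
        refine Prod.ext ?_ (funext fun E => ?_)
        · simp [Finset.smul_sum, smul_smul]
        · simp [Finset.mul_sum, mul_assoc] }
  have hd : Module.finrank ℝ ((Fin r → ℝ) × (T → ℝ)) < Module.finrank ℝ (S → ℝ) := by
    rw [Module.finrank_prod, Module.finrank_pi, Module.finrank_pi, Module.finrank_pi]
    simpa using h
  obtain ⟨c, hc, hc0⟩ := Submodule.exists_mem_ne_zero_of_ne_bot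
    (LinearMap.ker_ne_bot_of_finrank_lt (f := φ) hd)
  have hφ : φ c = 0 := hc
  have hφ1 : ∑ G : S, c G • B.cl G = 0 := congrArg Prod.fst hφ
  have hφ2 : ∀ E : T, ∑ G : S, c G * B.o (F G) E = 0 := fun E => congrFun (congrArg Prod.snd hφ) E
  let c' : B.D → ℝ := fun G => if hG : G ∈ S then c ⟨G, hG⟩ else 0
  have hc' : ∀ G : S, c' G = c G := fun G => by simp [c']
  refine ⟨c', ?_, ?_, ?_⟩
  · by_contra hcon
    push_neg at hcon
    exact hc0 (funext fun G => by
      rw [← hc' G]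
      exact hcon G G.2)
  · rw [← Finset.sum_coe_sort, ← hφ1]
    exact Finset.sum_congr rfl fun G _ => by rw [hc']
  · intro E hE
    rw [← oL_apply, map_sum, ← hφ2 ⟨E, hE⟩, ← Finset.sum_coe_sort]
    exact Finset.sum_congr rfl fun G _ => by
      rw [map_smul, hc', oL_apply, smul_eq_mul]

/-- finitely many components -/
theorem finite_of_least {x : Fin r → ℝ} {g : B.D → ℝ} {v : B.V} (hv : B.Nef v) (htr : B.tr v = x)
    (h0 : ∀ E, 0 ≤ B.o v E) (hg : ∀ E, g E ≤ B.o v E)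
    (hl : ∀ w, B.Nef w → B.tr w = x → (∀ E, 0 ≤ B.o w E) → (∀ E, g E ≤ B.o w E) →
      ∀ E, B.o v E ≤ B.o w E) (hf : {E | g E ≠ 0}.Finite) : {G | B.X G ∧ B.o v G ≠ 0}.Finite := by
  classical
  by_contra hinf
  set T : Finset B.D := hf.toFinset with hT
  have hN : {G | (B.X G ∧ B.o v G ≠ 0) ∧ G ∉ T}.Infinite := by
    have h := Set.Infinite.diff hinf T.finite_toSet
    exact h
  obtain ⟨S, hS, hcard⟩ := hN.exists_subset_card_eq (r + T.card + 1)
  have hSX : ∀ G ∈ S, B.X G := fun G hG => (hS hG).1.1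
  have hSv : ∀ G ∈ S, 0 < B.o v G := fun G hG => lt_of_le_of_ne (h0 G) (Ne.symm (hS hG).1.2)
  obtain ⟨F, hF⟩ := B.exists_pull
  obtain ⟨c, ⟨G₀, hG₀, hcG₀⟩, hc1, hc2⟩ := B.exists_rel (F := F) S T (by omega)
  -- the competitor
  have main : ∀ e : ℝ, (e = 1 ∨ e = -1) → 0 < e * c G₀ → False := by
    intro e he hpos
    obtain ⟨h1, h2, h3, h4⟩ := B.pull_sum hF S hSX c
    set z := ∑ G ∈ S, c G • F G with hz
    have habs : |e| = 1 := by rcases he with rfl | rfl <;> simp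
    -- small `t`
    obtain ⟨t, ht, htS⟩ : ∃ t : ℝ, 0 < t ∧ ∀ G ∈ S, t * |c G| ≤ B.o v G := by
      have hne : S.Nonempty := ⟨G₀, hG₀⟩
      refine ⟨S.inf' hne fun G => B.o v G / (|c G| + 1), ?_, fun G hG => ?_⟩
      · rw [Finset.lt_inf'_iff]
        exact fun G hG => div_pos (hSv G hG) (by positivity)
      · have h5 : S.inf' hne (fun G => B.o v G / (|c G| + 1)) ≤ B.o v G / (|c G| + 1) :=
          Finset.inf'_le _ hG
        have h6 : (0 : ℝ) < |c G| + 1 := by positivity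
        calc _ ≤ B.o v G / (|c G| + 1) * |c G| := mul_le_mul_of_nonneg_right h5 (abs_nonneg _)
          _ ≤ B.o v G / (|c G| + 1) * (|c G| + 1) :=
            mul_le_mul_of_nonneg_left (by linarith) (div_nonneg (hSv G hG).le h6.le)
          _ = B.o v G := div_mul_cancel₀ _ h6.ne'
    have ho : ∀ E, B.o (v + (t * e) • z) E = B.o v E + t * e * B.o z E := fun E => by
      rw [← oL_apply, map_add, map_smul, smul_eq_mul, oL_apply, oL_apply]
    have hnef : B.Nef (v + (t * e) • z) := B.nef_num v _ hv fun s => by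
      rw [← iL_apply, map_smul, iL_apply, h4, hc1, ← pL_apply, map_zero, ← iL_apply, map_zero,
        smul_zero]
    have htr' : B.tr (v + (t * e) • z) = x := by
      rw [← trL_apply, map_add, map_smul, trL_apply, trL_apply, h1, smul_zero, add_zero, htr]
    have hXX : ∀ G, B.X G → 0 ≤ B.o (v + (t * e) • z) G := fun G hG => by
      rw [ho]
      by_cases hGS : G ∈ S
      · rw [h2 G hGS]
        have h5 : t * e * c G ≤ B.o v G := by
          calc t * e * c G = t * (e * c G) := by ring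
            _ ≤ t * |c G| := by
              refine mul_le_mul_of_nonneg_left ?_ ht.le
              calc e * c G ≤ |e * c G| := le_abs_self _
                _ = |c G| := by rw [abs_mul, habs, one_mul]
            _ ≤ B.o v G := htS G hGS
        linarith
      · rw [h3 G hG hGS, mul_zero, add_zero]
        exact h0 G
    have hpos' := B.neg _ hnef hXX
    have hcomp : ∀ E, g E ≤ B.o (v + (t * e) • z) E := fun E => by
      by_cases hE : g E = 0
      · rw [hE]; exact hpos' E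
      · rw [ho, hc2 E (by rw [hT, Set.Finite.mem_toFinset]; exact hE), mul_zero, add_zero]
        exact hg E
    have h5 := hl _ hnef htr' hpos' hcomp G₀
    rw [ho, h2 G₀ hG₀] at h5
    have h6 : 0 < t * (e * c G₀) := mul_pos ht hpos
    nlinarith
  rcases lt_or_gt_of_ne hcG₀ with h | h
  · exact main (-1) (Or.inr rfl) (by linarith)
  · exact main 1 (Or.inl rfl) (by linarith)

/-- Among the effective b-divisors `y ≥ g` for which `x - y` is nef there is a smallest one. -/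
theorem least (x : Fin r → ℝ) (g : B.D → ℝ)
    (h : ∃ v, B.Nef v ∧ B.tr v = x ∧ (∀ E, 0 ≤ B.o v E) ∧ ∀ E, g E ≤ B.o v E) :
    ∃ v, B.Nef v ∧ B.tr v = x ∧ (∀ E, 0 ≤ B.o v E) ∧ (∀ E, g E ≤ B.o v E) ∧
      ({E | g E ≠ 0}.Finite → {G | B.X G ∧ B.o v G ≠ 0}.Finite) ∧
      ∀ w, B.Nef w → B.tr w = x → (∀ E, 0 ≤ B.o w E) → (∀ E, g E ≤ B.o w E) →
        ∀ E, B.o v E ≤ B.o w E := by
  have hle : ∀ f : B.D → ℝ, IsClosed {v : B.V | ∀ E, f E ≤ B.o v E} := fun f => by
    simp only [Set.setOf_forall]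
    exact isClosed_iInter fun E => isClosed_le continuous_const (B.cont_o E)
  have hge : ∀ f : B.D → ℝ, IsClosed {v : B.V | ∀ E, B.o v E ≤ f E} := fun f => by
    simp only [Set.setOf_forall]
    exact isClosed_iInter fun E => isClosed_le (B.cont_o E) continuous_const
  let S : Set B.V := {v | (B.Nef v ∧ B.tr v = x ∧ ∀ E, 0 ≤ B.o v E) ∧ ∀ E, g E ≤ B.o v E}
  have hSc : IsCompact S := (B.cpt x).inter_right (hle g)
  obtain ⟨v₀, a, b, c, d⟩ := h
  haveI : Nonempty S := ⟨⟨v₀, ⟨a, b, c⟩, d⟩⟩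
  let K : S → Set B.V := fun w => S ∩ {v | ∀ E, B.o v E ≤ B.o w.1 E}
  have hdir : Directed (fun s t : Set B.V => s ⊇ t) K := by
    intro w w'
    obtain ⟨u, h1, h2, h3⟩ := B.min w.1 w'.1 w.2.1.1 w'.2.1.1 (by rw [w.2.1.2.1, w'.2.1.2.1])
    have hu : u ∈ S := by
      refine ⟨⟨h1, by rw [h2, w.2.1.2.1], fun E => ?_⟩, fun E => ?_⟩
      · rw [h3]; exact le_min (w.2.1.2.2 E) (w'.2.1.2.2 E)
      · rw [h3]; exact le_min (w.2.2 E) (w'.2.2 E)
    refine ⟨⟨u, hu⟩, fun v hv => ⟨hv.1, fun E => (hv.2 E).trans ?_⟩,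
      fun v hv => ⟨hv.1, fun E => (hv.2 E).trans ?_⟩⟩
    · show B.o u E ≤ _
      rw [h3]; exact min_le_left _ _
    · show B.o u E ≤ _
      rw [h3]; exact min_le_right _ _
  obtain ⟨v, hv⟩ := IsCompact.nonempty_iInter_of_directed_nonempty_isCompact_isClosed K hdir
    (fun w => ⟨w.1, w.2, fun E => le_rfl⟩) (fun w => hSc.inter_right (hge _))
    fun w => (hSc.inter_right (hge _)).isClosed
  have hv' : ∀ w : S, v ∈ K w := fun w => Set.mem_iInter.mp hv w
  obtain ⟨⟨⟨h1, h2, h3⟩, h4⟩, -⟩ := hv' (Classical.arbitrary S)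
  have hl : ∀ w, B.Nef w → B.tr w = x → (∀ E, 0 ≤ B.o w E) → (∀ E, g E ≤ B.o w E) →
      ∀ E, B.o v E ≤ B.o w E := fun w a b c d => (hv' ⟨w, ⟨a, b, c⟩, d⟩).2
  exact ⟨v, h1, h2, h3, h4, B.finite_of_least h1 h2 h3 h4 hl, hl⟩

end BCl

end Pool.Agent.H54.XN
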