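import Mathlib

/-!
# MP_5ee2d0_ag: classes of b-divisors and currents on a projective variety of dimension `n = m + 4`

`X` is a smooth projective variety of dimension `n` with `H^1(X, O_X) = 0`. The models are the smooth
projective varieties with a birational morphism to `X`. A b-divisor is a family of real numbers, indexed by
the prime divisors on the models (the divisors of `X` among them), which is the difference of two families
of nonnegative numbers for which the series of the classes of the components on `X` converge (then the
series converge on every model). A b-class is a family of classes in `N^1(X') ⊗ ℝ`, `X'` the models, which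
is compatible with direct images; it is a Cartier class if it is given by the pull backs of one class, and
nef if it is a limit of nef Cartier classes; equivalently all the classes of the family are movable. The
intersection numbers of nef b-classes are the limits for decreasing sequences of nef Cartier classes
(Dang and Favre 2022).
-/

namespace Pool.Agent.H54.XN

/-- the pairs of a class in `N^1(X) ⊗ ℝ = ℝ^r` and a family of real numbers indexed by `D` -/
def Amb (r : ℕ) (D : Type) : Type := (Fin r → ℝ) × (D → ℝ)

instance (r : ℕ) (D : Type) : AddCommGroup (Amb r D) := Prod.instAddCommGroup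
instance (r : ℕ) (D : Type) : Module ℝ (Amb r D) := Prod.instModule

section

variable {W : Type} [AddCommGroup W] [Module ℝ W]

/-- `x` is in the subspace `S` -/
def In (S : Submodule ℝ W) (x : W) : Prop := x ∈ S

/-- the elements of the subspace `S` -/
def El (S : Submodule ℝ W) : Type := {x : W // In S x}

instance (S : Submodule ℝ W) : AddCommGroup (El S) := Submodule.addCommGroup S
instance (S : Submodule ℝ W) : Module ℝ (El S) := Submodule.module S

/-- the element `x` of `S` -/
def El.mk (S : Submodule ℝ W) (x : W) (h : In S x) : El S := ⟨x, h⟩

/-- an element of `S` as an element of the space -/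
def El.val (S : Submodule ℝ W) (v : El S) : W := v.1

end

/-- The prime divisors on the models of `X`, and the space `S` of the pairs `(x, y)`, where `x` is a class in
`N^1(X) ⊗ ℝ`, `r` the Picard number, and `y` is a b-divisor, such that the b-class of `x - y` (the pull back
of `x` minus `y`) is in the space generated by the nef b-classes. -/
structure Pairs (r : ℕ) where
  /-- the prime divisors on the models -/
  D : Type
  /-- the prime divisors of `X`, and their classes -/
  X : D → Prop
  cl : D → Fin r → ℝ
  S : Submodule ℝ (Amb r D)
  mem : ∀ x : Fin r → ℝ, In S (x, 0)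

namespace Pairs

variable {r : ℕ} (B : Pairs r)

/-- the pairs -/
def V : Type := El B.S

instance : AddCommGroup B.V := instAddCommGroupEl B.S
instance : Module ℝ B.V := instModuleRealEl B.S

/-- the pair `(x, 0)` -/
def pb (x : Fin r → ℝ) : B.V := El.mk B.S (x, 0) (B.mem x)

/-- the first component -/
def tr (v : B.V) : Fin r → ℝ := (El.val B.S v).1

/-- the coefficients of the b-divisor -/
def o (v : B.V) : B.D → ℝ := (El.val B.S v).2

end Pairs

/-- The properties of the b-classes of the pairs: `N = N^1(X) ⊗ ℝ`, `V` the space of the pairs, `D` the prime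
divisors on the models, `X G` if `G` is a divisor of `X`, with the class `cl G`; `pb x` is the pair `(x, 0)`,
`tr v` and `o v` are the components of the pair `v`; `Nef v` if its b-class is nef, `I` the intersection number
of `n` b-classes, `n = m + 4` the dimension of `X` (zero if the number of the classes is not `n`), `A` the
class of an ample divisor of `X`. -/
structure Cls {N V D : Type} [AddCommGroup N] [Module ℝ N] [TopologicalSpace N] [AddCommGroup V]
    [Module ℝ V] (m : ℕ) (X : D → Prop) (cl : D → N) (pb : N → V) (tr : V → N) (o : V → D → ℝ)
    (Nef : V → Prop) (I : Multiset V → ℝ) (A : N) : Prop where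
  /-- the intersection numbers are linear and symmetric -/
  I_lin : ∀ s, IsLinearMap ℝ fun a => I (a ::ₘ s)
  I_card : ∀ s, Multiset.card s ≠ m + 4 → I s = 0
  nef_add : ∀ a b, Nef a → Nef b → Nef (a + b)
  nef_smul : ∀ (t : ℝ) a, 0 ≤ t → Nef a → Nef (t • a)
  /-- A b-class is zero if its intersection numbers are zero, since the products of ample classes span the
  classes of curves on every model (hard Lefschetz theorem). -/
  nef_num : ∀ a b, Nef a → (∀ s, I (b ::ₘ s) = 0) → Nef (a + b)
  /-- `A` is ample -/
  amp : ∀ x, ∃ t : ℝ, 0 < t ∧ Nef (pb (A + t • x))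
  gen : ∀ v, ∃ a b, Nef a ∧ Nef b ∧ v = a - b
  nonneg : ∀ s, (∀ a ∈ s, Nef a) → 0 ≤ I s
  /-- an effective divisor has nonnegative intersection numbers with nef classes -/
  eff : ∀ v, tr v = 0 → (∀ E, o v E ≤ 0) → ∀ s, (∀ a ∈ s, Nef a) → 0 ≤ I (v ::ₘ s)
  summable : ∀ v, Summable fun G : {G // X G} => o v G • cl G
  /-- projection formula -/
  proj : ∀ v (s : Multiset N), I (v ::ₘ s.map pb) =
    I (pb (tr v - ∑' G : {G // X G}, o v G • cl G) ::ₘ s.map pb)
  /-- negativity lemma (Shokurov, Kollár; for b-divisors Boucksom, de Fernex and Favre 2012) -/
  neg : ∀ v, Nef v → (∀ G, X G → 0 ≤ o v G) → ∀ E, 0 ≤ o v E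
  /-- numerically trivial classes on `X` are zero -/
  nd : ∀ c, (∀ s : Multiset N, I (pb c ::ₘ s.map pb) = 0) → c = 0
  /-- The pull back of the prime divisor `G` of `X` to the models: the pair `(0, y)`, where `-y_E` is the
  multiplicity of `G` along `E`, has the same b-class as the pair `(cl G, 0)`. -/
  pull : ∀ G, X G → ∃ z, tr z = 0 ∧ (∀ E, o z E ≤ 0) ∧ o z G = -1 ∧
    (∀ G', X G' → G' ≠ G → o z G' = 0) ∧ ∀ s, I (z ::ₘ s) = I (pb (cl G) ::ₘ s)
  ne : ∀ G, X G → cl G ≠ 0
  /-- different prime divisors meet in an effective cycle -/
  dist : ∀ G G', X G → X G' → G ≠ G' →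
    0 ≤ I (pb (cl G) ::ₘ pb (cl G') ::ₘ Multiset.replicate (m + 2) (pb A))
  /-- Hodge index theorem (Hodge and Riemann; Gromov 1990 for ample classes `s`; Dang and Favre 2022 for nef
  b-classes) -/
  index : ∀ s u v, (∀ a ∈ s, Nef a) → 0 < I (v ::ₘ v ::ₘ s) → I (u ::ₘ v ::ₘ s) = 0 →
    I (u ::ₘ u ::ₘ s) ≤ 0
  /-- Boucksom, de Fernex and Favre 2012: the minimum of two b-divisors `y`, `y'` for which `x - y` and
  `x - y'` are nef has this property (for global classes by the sum of two ideals) -/
  min : ∀ v w, Nef v → Nef w → tr v = tr w →
    ∃ u, Nef u ∧ tr u = tr v ∧ ∀ E, o u E = Min.min (o v E) (o w E)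
  /-- The nef b-classes with bounded class on `X` form a compact set for the topology of pointwise convergence
  of the pairs (Boucksom, Favre and Jonsson 2009, Dang and Favre 2022). If a limit `y` of b-divisors
  `y_k ≥ o w`, `x_k - y_k` nef, has lost mass then this mass is movable on every model (Boucksom, Nakayama
  2004: lower semicontinuity of the multiplicities of pseudoeffective classes), and a b-class is nef if its
  classes on all the models are movable. -/
  compact : ∀ (K : Set N) (w : V), IsCompact K →
    IsCompact {p : N × (D → ℝ) | ∃ v, Nef v ∧ tr v ∈ K ∧ (∀ E, o w E ≤ o v E) ∧ p = (tr v, o v)}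
  /-- Siu 1993: if `a^n > n a^(n-1).b` then `a - b` is pseudoeffective; divisorial Zariski
  decomposition (Boucksom, Nakayama 2004) on all the models -/
  siu : ∀ a b, Nef a → Nef b →
    (m + 4) * I (b ::ₘ Multiset.replicate (m + 3) a) < I (Multiset.replicate (m + 4) a) →
    ∃ v, Nef v ∧ tr v = tr a - tr b ∧ ∀ E, o a E - o b E ≤ o v E

/-- Nef b-classes, and the intersection numbers of b-classes (Dang and Favre 2022: they are multilinear and
symmetric, and continuous for decreasing sequences). The dimension of `X` is `m + 4`. -/
structure BCl (r m : ℕ) extends Pairs r where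
  /-- the b-class of the pair is nef -/
  Nef : toPairs.V → Prop
  /-- the intersection number of the b-classes of `n` pairs (zero if the number of the pairs is not `n`) -/
  I : Multiset toPairs.V → ℝ
  /-- the class of an ample divisor of `X` -/
  A : Fin r → ℝ
  cls : Cls m X cl toPairs.pb toPairs.tr toPairs.o Nef I A

/-- The nef b-classes `L - y`, `y` an effective b-divisor. -/
def Good {r m : ℕ} (B : BCl r m) (L : Fin r → ℝ) (v : B.V) : Prop :=
  B.Nef v ∧ B.tr v = L ∧ ∀ E, 0 ≤ B.o v E

/-- The closed positive currents in the class of the nef divisor `L`. -/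
structure Cur {r m : ℕ} (B : BCl r m) (L : Fin r → ℝ) where
  C : Type
  /-- the generic Lelong numbers (of the pull back) along the prime divisors on the models -/
  nu : C → B.D → ℝ
  /-- the pseudoeffective class `L - y` contains a current on every model; weak compactness, the Lelong
  numbers are upper semicontinuous -/
  cur : ∀ v, Good B L v → ∃ T, ∀ E, B.o v E ≤ nu T E
  /-- Demailly's approximation theorem -/
  nef : ∀ T, ∃ v, Good B L v ∧ ∀ E, B.o v E = nu T E

end Pool.Agent.H54.XN
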