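import Pool.Agent.H60.BC.Cpt4

/-! The strict form of the Hodge index theorem, by polarisation. -/

namespace Pool.Agent.H15.XF

variable {r : ℕ}

namespace BCl

variable (B : BCl r)

/-- polarisation -/
theorem exists_power (v u b c : B.V) (hb : B.Nef b) (hc : B.Nef c) (h : B.I v u b c ≠ 0) :
    ∃ H, B.Nef H ∧ B.Nef (H - B.pb B.A) ∧ B.I v u H H ≠ 0 := by
  have key : ∀ s t : ℝ, 0 ≤ s → 0 ≤ t →
      B.Nef (B.pb B.A + s • b + t • c) ∧ B.Nef (B.pb B.A + s • b + t • c - B.pb B.A) := by
    intro s t hs ht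
    have h1 : B.Nef (s • b + t • c) :=
      B.nef_add _ _ (B.nef_smul _ _ hs hb) (B.nef_smul _ _ ht hc)
    constructor
    · rw [add_assoc]
      exact B.nef_add _ _ B.nef_A h1
    · have h2 : B.pb B.A + s • b + t • c - B.pb B.A = s • b + t • c := by abel
      rw [h2]
      exact h1
  have l4 : ∀ a x y : B.V, ∀ (s : ℝ), B.I v u a (x + s • y) = B.I v u a x + s * B.I v u a y := by
    intro a x y s
    have hrot : ∀ w, B.I v u a w = B.I w v u a := fun w => by
      rw [B.symm34, B.symm23, B.symm12]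
    rw [hrot, hrot, hrot, ← iL_apply, map_add, map_smul, smul_eq_mul]
    rfl
  have l3 : ∀ a x y : B.V, ∀ (s : ℝ), B.I v u (x + s • y) a = B.I v u x a + s * B.I v u y a := by
    intro a x y s
    rw [B.symm34, l4, B.symm34, B.symm34 v u a y]
  have hF : ∀ s t : ℝ, B.I v u (B.pb B.A + s • b + t • c) (B.pb B.A + s • b + t • c) =
      B.I v u (B.pb B.A) (B.pb B.A) + 2 * s * B.I v u (B.pb B.A) b + s ^ 2 * B.I v u b b +
        2 * t * B.I v u (B.pb B.A) c + t ^ 2 * B.I v u c c + 2 * s * t * B.I v u b c := by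
    intro s t
    rw [l4, l4, l3, l3, l3, l3, l3, l3, B.symm34 v u b (B.pb B.A), B.symm34 v u c (B.pb B.A),
      B.symm34 v u c b]
    ring
  by_contra hcon
  push_neg at hcon
  have h11 := hcon _ (key 1 1 (by norm_num) (by norm_num)).1 (key 1 1 (by norm_num) (by norm_num)).2
  have h12 := hcon _ (key 1 2 (by norm_num) (by norm_num)).1 (key 1 2 (by norm_num) (by norm_num)).2
  have h21 := hcon _ (key 2 1 (by norm_num) (by norm_num)).1 (key 2 1 (by norm_num) (by norm_num)).2
  have h22 := hcon _ (key 2 2 (by norm_num) (by norm_num)).1 (key 2 2 (by norm_num) (by norm_num)).2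
  rw [hF] at h11 h12 h21 h22
  exact h (by linarith)

/-- a form which is not positive on the orthogonal space of `x` -/
theorem strict_aux (M H : B.V) (hM : B.Nef M) (hH : B.Nef H) (v u x : B.V)
    (hx : 0 < B.I x x M H) (hv : B.I v x M H = 0) (hu : B.I v u M H ≠ 0) :
    B.I v v M H < 0 := by
  let Q : B.V → B.V → ℝ := fun a b => B.I a b M H
  have hsymm : ∀ a b, Q a b = Q b a := fun a b => B.symm12 _ _ _ _
  have hadd : ∀ a a' b, Q (a + a') b = Q a b + Q a' b := fun a a' b => map_add (B.iL b M H) a a'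
  have hmul : ∀ (t : ℝ) a b, Q (t • a) b = t * Q a b := fun t a b => map_smul (B.iL b M H) t a
  have hadd' : ∀ a b b', Q a (b + b') = Q a b + Q a b' := fun a b b' => by
    rw [hsymm, hadd, hsymm b, hsymm b']
  have hmul' : ∀ (t : ℝ) a b, Q a (t • b) = t * Q a b := fun t a b => by
    rw [hsymm, hmul, hsymm]
  have hind : ∀ w, Q w x = 0 → Q w w ≤ 0 := fun w hw => B.index M H w x hM hH hx hw
  by_contra hcon
  have hvv : Q v v = 0 := le_antisymm (hind v hv) (not_lt.mp hcon)
  have hvx : Q v x = 0 := hv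
  have hxx : 0 < Q x x := hx
  have key : ∀ w, Q w x = 0 → Q v w = 0 := fun w hw => by
    have h : ∀ t : ℝ, 2 * t * Q v w + t ^ 2 * Q w w ≤ 0 := fun t => by
      have h1 : Q (v + t • w) x = 0 := by rw [hadd, hmul, hvx, hw, mul_zero, add_zero]
      have h2 := hind _ h1
      rw [hadd, hadd', hadd', hmul, hmul, hmul', hmul', hvv, hsymm w v] at h2
      linarith
    have hww := hind w hw
    by_contra hne
    rcases eq_or_lt_of_le hww with h0 | h0
    · rcases lt_or_gt_of_ne hne with hlt | hgt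
      · have := h (-1)
        rw [h0] at this
        linarith
      · have := h 1
        rw [h0] at this
        linarith
    · have h3 := h (Q v w / -Q w w)
      have h4 : 0 < -Q w w := by linarith
      have h5 : 2 * (Q v w / -Q w w) * Q v w + (Q v w / -Q w w) ^ 2 * Q w w =
          Q v w ^ 2 / -Q w w := by
        field_simp
        ring
      rw [h5] at h3
      have h6 : 0 < Q v w ^ 2 / -Q w w := div_pos (by positivity) h4
      linarith
  apply hu
  show Q v u = 0
  set c := Q u x / Q x x with hc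
  have h1 : Q (u + (-c) • x) x = 0 := by
    rw [hadd, hmul, hc]
    field_simp
    ring
  have h2 := key _ h1
  rw [hadd', hmul', hvx, mul_zero, add_zero] at h2
  exact h2

/-- Hodge index theorem, strict form -/
theorem strict (v : B.V) (h : ∃ a b c, B.I v a b c ≠ 0) : ∃ H, B.Nef H ∧ B.Nef (H - B.pb B.A) ∧
    ∀ x, B.Nef (B.pb x) → 0 < B.I (B.pb x) (B.pb x) H H → B.I v (B.pb x) H H = 0 →
      B.I v v H H < 0 := by
  obtain ⟨u, b, c, -, hb, hc, hs0⟩ :
      ∃ u b c, B.Nef u ∧ B.Nef b ∧ B.Nef c ∧ B.I v u b c ≠ 0 := by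
    by_contra hcon
    push_neg at hcon
    obtain ⟨x, y, z, hs⟩ := h
    exact hs (B.I_zero_of_nef v hcon x y z)
  obtain ⟨H, h1, h2, h3⟩ := B.exists_power v u b c hb hc hs0
  exact ⟨H, h1, h2, fun x _ hx hvx => B.strict_aux H H h1 h1 v u (B.pb x) hx hvx h3⟩

end BCl

end Pool.Agent.H15.XF
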