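import Pool.Agent.H60.BC.CptN

/-! The strict form of the Hodge index theorem, by polarisation. -/

namespace Pool.Agent.H54.XN

variable {r m : ℕ}

namespace BCl

variable (B : BCl r m)

open Polynomial in
/-- `(p + t q)^k . R` is a polynomial in `t` -/
theorem exists_poly (p q : B.V) (k : ℕ) : ∀ R : Multiset B.V, ∃ P : ℝ[X],
    (∀ t : ℝ, P.eval t = B.I (Multiset.replicate k (p + t • q) + R)) ∧
      P.coeff 1 = k * B.I (q ::ₘ (Multiset.replicate (k - 1) p + R)) := by
  induction k with
  | zero =>
      intro R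
      exact ⟨C (B.I R), fun t => by simp, by simp [coeff_C]⟩
  | succ k ih =>
      intro R
      obtain ⟨P, hP, hP1⟩ := ih (p ::ₘ R)
      obtain ⟨P', hP', -⟩ := ih (q ::ₘ R)
      refine ⟨P + X * P', fun t => ?_, ?_⟩
      · have h : Multiset.replicate (k + 1) (p + t • q) + R =
            (p + t • q) ::ₘ (Multiset.replicate k (p + t • q) + R) := by
          rw [Multiset.replicate_succ, Multiset.cons_add]
        rw [eval_add, eval_mul, eval_X, hP, hP', h, ← iL_apply, map_add, map_smul, iL_apply, iL_apply,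
          smul_eq_mul, Multiset.add_cons, Multiset.add_cons]
      · have h0 : P'.coeff 0 = B.I (q ::ₘ (Multiset.replicate k p + R)) := by
          rw [coeff_zero_eq_eval_zero, hP', zero_smul, add_zero, Multiset.add_cons]
        have h1 : (X * P').coeff 1 = P'.coeff 0 := coeff_X_mul P' 0
        rw [coeff_add, h1, h0, hP1]
        rcases Nat.eq_zero_or_pos k with rfl | hk
        · simp
        · obtain ⟨j, rfl⟩ : ∃ j, k = j + 1 := ⟨k - 1, by omega⟩
          have h2 : Multiset.replicate (j + 1 - 1) p + (p ::ₘ R) =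
              Multiset.replicate (j + 1) p + R := by
            rw [Nat.add_sub_cancel, Multiset.add_cons, Multiset.replicate_succ, Multiset.cons_add]
          rw [h2, Nat.add_sub_cancel]
          push_cast
          ring

/-- polarisation -/
theorem exists_power (k : ℕ) : ∀ (s R : Multiset B.V), (∀ a ∈ s, B.Nef a) → Multiset.card s = k →
    B.I (s + R) ≠ 0 → ∃ H, B.Nef H ∧ B.Nef (H - B.pb B.A) ∧
      B.I (Multiset.replicate k H + R) ≠ 0 := by
  induction k with
  | zero =>
      intro s R _ hk h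
      rw [Multiset.card_eq_zero.mp hk] at h
      exact ⟨B.pb B.A, B.nef_A, by rw [sub_self]; exact B.nef_zero', by simpa using h⟩
  | succ k ih =>
      intro s R hs hk h
      obtain ⟨a, s', rfl⟩ : ∃ a s', s = a ::ₘ s' := by
        have h0 : s ≠ 0 := fun h => by rw [h] at hk; simp at hk
        obtain ⟨a, ha⟩ := Multiset.exists_mem_of_ne_zero h0
        obtain ⟨s', hs'⟩ := Multiset.exists_cons_of_mem ha
        exact ⟨a, s', hs'⟩
      have ha : B.Nef a := hs a (Multiset.mem_cons_self a s')
      obtain ⟨H, h1, h2, h3⟩ := ih s' (a ::ₘ R) (fun b hb => hs b (Multiset.mem_cons_of_mem hb))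
        (by rw [Multiset.card_cons] at hk; omega) (by
          rw [Multiset.add_cons, ← Multiset.cons_add]
          exact h)
      obtain ⟨P, hP, hP1⟩ := B.exists_poly H a (k + 1) R
      have hP0 : P ≠ 0 := by
        rintro rfl
        rw [Polynomial.coeff_zero, Nat.add_sub_cancel] at hP1
        rw [Multiset.add_cons] at h3
        rcases mul_eq_zero.mp hP1.symm with h | h
        · have : (0 : ℝ) < ((k + 1 : ℕ) : ℝ) := by positivity
          exact this.ne' h
        · exact h3 h
      obtain ⟨t, ht, ht'⟩ : ∃ t : ℝ, 0 < t ∧ P.eval t ≠ 0 := by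
        by_contra hcon
        push_neg at hcon
        exact hP0 (Polynomial.eq_zero_of_infinite_isRoot P
          ((Set.Ioi_infinite (0 : ℝ)).mono fun t ht => hcon t ht))
      refine ⟨H + t • a, B.nef_add _ _ h1 (B.nef_smul t a ht.le ha), ?_, ?_⟩
      · have h : H + t • a - B.pb B.A = (H - B.pb B.A) + t • a := by abel
        rw [h]
        exact B.nef_add _ _ h2 (B.nef_smul t a ht.le ha)
      · rw [← hP]
        exact ht'

/-- a form which is not positive on the orthogonal space of `x` -/
theorem strict_aux (s : Multiset B.V) (hs : ∀ a ∈ s, B.Nef a) (v u x : B.V)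
    (hx : 0 < B.I (x ::ₘ x ::ₘ s)) (hv : B.I (v ::ₘ x ::ₘ s) = 0) (hu : B.I (v ::ₘ u ::ₘ s) ≠ 0) :
    B.I (v ::ₘ v ::ₘ s) < 0 := by
  let Q : B.V → B.V → ℝ := fun a b => B.I (a ::ₘ b ::ₘ s)
  have hsymm : ∀ a b, Q a b = Q b a := fun a b => by
    show B.I _ = B.I _
    rw [Multiset.cons_swap]
  have hadd : ∀ a a' b, Q (a + a') b = Q a b + Q a' b := fun a a' b => map_add (B.iL (b ::ₘ s)) a a'
  have hmul : ∀ (t : ℝ) a b, Q (t • a) b = t * Q a b := fun t a b => map_smul (B.iL (b ::ₘ s)) t a
  have hadd' : ∀ a b b', Q a (b + b') = Q a b + Q a b' := fun a b b' => by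
    rw [hsymm, hadd, hsymm b, hsymm b']
  have hmul' : ∀ (t : ℝ) a b, Q a (t • b) = t * Q a b := fun t a b => by
    rw [hsymm, hmul, hsymm]
  have hind : ∀ w, Q w x = 0 → Q w w ≤ 0 := fun w hw => B.index s w x hs hx hw
  by_contra hcon
  have hvv : Q v v = 0 := le_antisymm (hind v hv) (not_lt.mp hcon)
  have hvx : Q v x = 0 := hv
  have hxx : 0 < Q x x := hx
  have key : ∀ w, Q w x = 0 → Q v w = 0 := fun w hw => by
    have h : ∀ t : ℝ, 2 * t * Q v w + t ^ 2 * Q w w ≤ 0 := fun t => by
      have h1 : Q (v + t • w) x = 0 := by rw [hadd, hmul, hvx, hw, mul_zero, add_zero]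
      have h2 := hind _ h1
      rw [hadd, hadd', hadd', hmul, hmul, hmul', hmul', hvv, hsymm w v] at h2
      linarith
    have hww := hind w hw
    by_contra hne
    rcases lt_or_gt_of_ne hne with hlt | hgt
    · rcases eq_or_lt_of_le hww with h0 | h0
      · have := h (-1)
        rw [h0] at this
        linarith
      · have h3 := h (Q v w / -Q w w)
        have h4 : 0 < -Q w w := by linarith
        have h5 : 2 * (Q v w / -Q w w) * Q v w + (Q v w / -Q w w) ^ 2 * Q w w =
            Q v w ^ 2 / -Q w w := by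
          field_simp
          ring
        rw [h5] at h3
        have h6 : 0 < Q v w ^ 2 / -Q w w := div_pos (by positivity) h4
        linarith
    · rcases eq_or_lt_of_le hww with h0 | h0
      · have := h 1
        rw [h0] at this
        linarith
      · have h3 := h (Q v w / -Q w w)
        have h4 : 0 < -Q w w := by linarith
        have h5 : 2 * (Q v w / -Q w w) * Q v w + (Q v w / -Q w w) ^ 2 * Q w w =
            Q v w ^ 2 / -Q w w := by
          field_simp
          ring
        rw [h5] at h3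
        have h6 : 0 < Q v w ^ 2 / -Q w w := div_pos (by positivity) h4
        linarith
  apply hu
  show Q v u = 0
  set c := Q u x / Q x x with hc
  have h1 : Q (u + (-c) • x) x = 0 := by
    rw [hadd, hmul, hc]
    field_simp
    ring
  have h2 := key _ h1
  rw [hadd', hmul', hvx, mul_zero, add_zero] at h2
  exact h2

/-- Hodge index theorem, strict form -/
theorem strict (v : B.V) (h : ∃ s, B.I (v ::ₘ s) ≠ 0) : ∃ H, B.Nef H ∧ B.Nef (H - B.pb B.A) ∧
    ∀ x, B.Nef (B.pb x) → 0 < B.I (B.pb x ::ₘ B.pb x ::ₘ Multiset.replicate (m + 2) H) →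
      B.I (v ::ₘ B.pb x ::ₘ Multiset.replicate (m + 2) H) = 0 →
        B.I (v ::ₘ v ::ₘ Multiset.replicate (m + 2) H) < 0 := by
  obtain ⟨s, hs, hs0⟩ : ∃ s, (∀ a ∈ s, B.Nef a) ∧ B.I (v ::ₘ s) ≠ 0 := by
    by_contra hcon
    push_neg at hcon
    obtain ⟨s, hs⟩ := h
    exact hs (B.I_zero_of_nef v hcon s)
  have hcard : Multiset.card s = m + 3 := by
    by_contra hne
    exact hs0 (B.I_card _ (by rw [Multiset.card_cons]; omega))
  obtain ⟨u, s', rfl⟩ : ∃ u s', s = u ::ₘ s' := by
    have h0 : s ≠ 0 := fun h => by rw [h] at hcard; simp at hcard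
    obtain ⟨a, ha⟩ := Multiset.exists_mem_of_ne_zero h0
    obtain ⟨s', hs'⟩ := Multiset.exists_cons_of_mem ha
    exact ⟨a, s', hs'⟩
  obtain ⟨H, h1, h2, h3⟩ := B.exists_power (m + 2) s' (v ::ₘ u ::ₘ 0)
    (fun b hb => hs b (Multiset.mem_cons_of_mem hb)) (by rw [Multiset.card_cons] at hcard; omega)
    (by
      rw [Multiset.add_cons, Multiset.add_cons, add_zero]
      exact hs0)
  rw [Multiset.add_cons, Multiset.add_cons, add_zero] at h3
  exact ⟨H, h1, h2, fun x _ hx hvx => B.strict_aux _
    (fun a ha => by rw [Multiset.eq_of_mem_replicate ha]; exact h1) v u (B.pb x) hx hvx h3⟩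

end BCl

end Pool.Agent.H54.XN
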