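import Pool.Agent.H60.BC.Defs4

/-! Consequences of the fields of `BCl`. -/

namespace Pool.Agent.H15.XF

variable {r : ℕ}

/-- the class on `X` of the b-class of a pair -/
noncomputable def Pairs.cx (B : Pairs r) (v : B.V) : Fin r → ℝ :=
  B.tr v - ∑' G : {G // B.X G}, B.o v G • B.cl G

namespace BCl

variable (B : BCl r)

theorem I_lin : ∀ b c d, IsLinearMap ℝ fun a => B.I a b c d := B.cls.I_lin

theorem symm12 : ∀ a b c d, B.I a b c d = B.I b a c d := B.cls.symm12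

theorem symm23 : ∀ a b c d, B.I a b c d = B.I a c b d := B.cls.symm23

theorem symm34 : ∀ a b c d, B.I a b c d = B.I a b d c := B.cls.symm34

theorem nef_add : ∀ a b, B.Nef a → B.Nef b → B.Nef (a + b) := B.cls.nef_add

theorem nef_smul : ∀ (t : ℝ) a, 0 ≤ t → B.Nef a → B.Nef (t • a) := B.cls.nef_smul

theorem nef_num : ∀ a b, B.Nef a → (∀ x y z, B.I b x y z = 0) → B.Nef (a + b) := B.cls.nef_num

theorem amp : ∀ x, ∃ t : ℝ, 0 < t ∧ B.Nef (B.pb (B.A + t • x)) := B.cls.amp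

theorem gen : ∀ v, ∃ a b, B.Nef a ∧ B.Nef b ∧ v = a - b := B.cls.gen

theorem nonneg : ∀ a b c d, B.Nef a → B.Nef b → B.Nef c → B.Nef d → 0 ≤ B.I a b c d := B.cls.nonneg

theorem eff : ∀ v, B.tr v = 0 → (∀ E, B.o v E ≤ 0) → ∀ a b c, B.Nef a → B.Nef b → B.Nef c →
    0 ≤ B.I v a b c := B.cls.eff

theorem summable : ∀ v, Summable fun G : {G // B.X G} => B.o v G • B.cl G := B.cls.summable

theorem proj : ∀ v x y z, B.I v (B.pb x) (B.pb y) (B.pb z) =
    B.I (B.pb (B.cx v)) (B.pb x) (B.pb y) (B.pb z) := B.cls.proj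

theorem neg : ∀ v, B.Nef v → (∀ G, B.X G → 0 ≤ B.o v G) → ∀ E, 0 ≤ B.o v E := B.cls.neg

theorem nd : ∀ c, (∀ x y z, B.I (B.pb c) (B.pb x) (B.pb y) (B.pb z) = 0) → c = 0 := B.cls.nd

theorem pull : ∀ G, B.X G → ∃ z, B.tr z = 0 ∧ (∀ E, B.o z E ≤ 0) ∧ B.o z G = -1 ∧
    (∀ G', B.X G' → G' ≠ G → B.o z G' = 0) ∧ ∀ a b c, B.I z a b c = B.I (B.pb (B.cl G)) a b c :=
  B.cls.pull

theorem ne : ∀ G, B.X G → B.cl G ≠ 0 := B.cls.ne

theorem dist : ∀ G G', B.X G → B.X G' → G ≠ G' →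
    0 ≤ B.I (B.pb (B.cl G)) (B.pb (B.cl G')) (B.pb B.A) (B.pb B.A) := B.cls.dist

theorem index : ∀ M H u v, B.Nef M → B.Nef H → 0 < B.I v v M H → B.I u v M H = 0 →
    B.I u u M H ≤ 0 := B.cls.index

theorem min : ∀ v w, B.Nef v → B.Nef w → B.tr v = B.tr w →
    ∃ u, B.Nef u ∧ B.tr u = B.tr v ∧ ∀ E, B.o u E = Min.min (B.o v E) (B.o w E) := B.cls.min

theorem siu : ∀ a b, B.Nef a → B.Nef b → 4 * B.I a a a b < B.I a a a a →
    ∃ v, B.Nef v ∧ B.tr v = B.tr a - B.tr b ∧ ∀ E, B.o a E - B.o b E ≤ B.o v E := B.cls.siu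

instance : TopologicalSpace B.V := TopologicalSpace.induced (fun v => (B.tr v, B.o v)) inferInstance

theorem ext' (v w : B.V) (h : B.tr v = B.tr w) (h' : B.o v = B.o w) : v = w :=
  Subtype.ext (Prod.ext h h')

theorem emb : Topology.IsEmbedding fun v : B.V => (B.tr v, B.o v) where
  eq_induced := rfl
  injective v w h := B.ext' v w (congrArg Prod.fst h) (congrArg Prod.snd h)

theorem compact (K : Set (Fin r → ℝ)) (w : B.V) (hK : IsCompact K) :
    IsCompact {v : B.V | B.Nef v ∧ B.tr v ∈ K ∧ ∀ E, B.o w E ≤ B.o v E} := by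
  rw [B.emb.isCompact_iff]
  convert B.cls.compact K w hK using 1
  ext p
  constructor
  · rintro ⟨v, ⟨h1, h2, h3⟩, rfl⟩
    exact ⟨v, h1, h2, h3, rfl⟩
  · rintro ⟨v, h1, h2, h3, rfl⟩
    exact ⟨v, ⟨h1, h2, h3⟩, rfl⟩

instance : T2Space B.V := B.emb.t2Space

/-- the group of the pairs -/
abbrev grp : AddCommGroup B.V := inferInstance

/-- the vector space of the pairs -/
abbrev mod : Module ℝ B.V := inferInstance

theorem pb_lin : IsLinearMap ℝ B.pb where
  map_add _ _ := B.ext' _ _ rfl (add_zero (0 : B.D → ℝ)).symm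
  map_smul c _ := B.ext' _ _ rfl (smul_zero c).symm

theorem tr_lin : IsLinearMap ℝ B.tr where
  map_add _ _ := rfl
  map_smul _ _ := rfl

theorem o_lin : IsLinearMap ℝ B.o where
  map_add _ _ := rfl
  map_smul _ _ := rfl

theorem tr_pb (x : Fin r → ℝ) : B.tr (B.pb x) = x := rfl

theorem o_pb (x : Fin r → ℝ) : B.o (B.pb x) = 0 := rfl

theorem ext (v : B.V) (h : B.tr v = 0) (h' : B.o v = 0) : v = 0 := B.ext' v 0 h h'

theorem sum (v : B.V) : HasSum (fun G : {G // B.X G} => B.o v G • B.cl G) (B.tr v - B.cx v) := by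
  have h : B.tr v - B.cx v = ∑' G : {G // B.X G}, B.o v G • B.cl G := by
    rw [Pairs.cx, sub_sub_cancel]
  rw [h]
  exact (B.summable v).hasSum

/-- the first component, a linear map -/
def trL : B.V →ₗ[ℝ] (Fin r → ℝ) := IsLinearMap.mk' _ B.tr_lin

/-- the coefficient of `E`, a linear map -/
def oL (E : B.D) : B.V →ₗ[ℝ] ℝ := (LinearMap.proj E).comp (IsLinearMap.mk' _ B.o_lin)

/-- the intersection number with `a`, `b`, `c`, a linear map -/
def iL (a b c : B.V) : B.V →ₗ[ℝ] ℝ := IsLinearMap.mk' _ (B.I_lin a b c)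

/-- the pair `(x, 0)`, a linear map -/
def pL : (Fin r → ℝ) →ₗ[ℝ] B.V := IsLinearMap.mk' _ B.pb_lin

theorem trL_apply (v : B.V) : B.trL v = B.tr v := rfl

theorem oL_apply (E : B.D) (v : B.V) : B.oL E v = B.o v E := rfl

theorem iL_apply (a b c : B.V) (v : B.V) : B.iL a b c v = B.I v a b c := rfl

theorem pL_apply (x : Fin r → ℝ) : B.pL x = B.pb x := rfl

theorem cont_tr : Continuous B.tr := continuous_fst.comp B.emb.continuous

theorem cont_o (E : B.D) : Continuous fun v => B.o v E :=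
  (continuous_apply E).comp (continuous_snd.comp B.emb.continuous)

theorem nef_A : B.Nef (B.pb B.A) := by
  obtain ⟨t, -, h⟩ := B.amp 0
  rwa [smul_zero, add_zero] at h

theorem ample (x : Fin r → ℝ) : ∃ t : ℝ, B.Nef (B.pb (t • B.A + x)) := by
  obtain ⟨t, ht, h⟩ := B.amp x
  refine ⟨t⁻¹, ?_⟩
  have h1 := B.nef_smul t⁻¹ _ (inv_nonneg.mpr ht.le) h
  rwa [← pL_apply, ← map_smul, smul_add, smul_smul, inv_mul_cancel₀ ht.ne', one_smul,
    pL_apply] at h1

theorem nef_zero' : B.Nef 0 := by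
  have h := B.nef_smul 0 _ le_rfl B.nef_A
  rwa [zero_smul] at h

/-- a b-divisor which is exceptional over `X` and numerically trivial is zero -/
theorem zero (v : B.V) (h : B.tr v = 0) (hX : ∀ G, B.X G → B.o v G = 0)
    (hI : ∀ a b c, B.I v a b c = 0) : v = 0 := by
  have h1 : B.Nef v := by
    have h := B.nef_num 0 v B.nef_zero' hI
    rwa [zero_add] at h
  have h2 : B.Nef (-v) := by
    have h := B.nef_num 0 (-v) B.nef_zero' fun a b c => by
      rw [← iL_apply, map_neg, iL_apply, hI a b c, neg_zero]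
    rwa [zero_add] at h
  refine B.ext v h (funext fun E => le_antisymm ?_ ?_)
  · have h3 := B.neg (-v) h2 (fun G hG => by
      rw [← oL_apply, map_neg, oL_apply, hX G hG, neg_zero]) E
    rw [← oL_apply, map_neg, oL_apply] at h3
    exact neg_nonneg.mp h3
  · exact B.neg v h1 (fun G hG => (hX G hG).ge) E

/-- a prime divisor of `X` is effective -/
theorem prime (G : B.D) (hG : B.X G) (a b c : B.V) (ha : B.Nef a) (hb : B.Nef b) (hc : B.Nef c) :
    0 ≤ B.I (B.pb (B.cl G)) a b c := by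
  obtain ⟨z, h1, h2, -, -, h5⟩ := B.pull G hG
  rw [← h5]
  exact B.eff z h1 h2 a b c ha hb hc

/-- if the numbers `v.x.y.z` are zero for nef classes `x`, `y`, `z` of `X`, then for all classes of `X` -/
theorem num_of_nef (v : B.V) (h : ∀ x y z, B.Nef (B.pb x) → B.Nef (B.pb y) → B.Nef (B.pb z) →
    B.I v (B.pb x) (B.pb y) (B.pb z) = 0) (x y z : Fin r → ℝ) :
    B.I v (B.pb x) (B.pb y) (B.pb z) = 0 := by
  have h1 : ∀ x y z, B.Nef (B.pb y) → B.Nef (B.pb z) → B.I v (B.pb x) (B.pb y) (B.pb z) = 0 :=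
    fun x y z hy hz => by
    obtain ⟨t, ht, hx⟩ := B.amp x
    have h3 := h _ _ _ hx hy hz
    rw [B.symm12, ← pL_apply, map_add, map_smul, ← iL_apply, map_add, map_smul, iL_apply, iL_apply,
      pL_apply, pL_apply, B.symm12, B.symm12 (B.pb x), h _ _ _ B.nef_A hy hz, zero_add,
      smul_eq_mul] at h3
    exact (mul_eq_zero.mp h3).resolve_left ht.ne'
  have h2 : ∀ x y z, B.Nef (B.pb z) → B.I v (B.pb x) (B.pb y) (B.pb z) = 0 := fun x y z hz => by
    obtain ⟨t, ht, hy⟩ := B.amp y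
    have h3 := h1 x _ _ hy hz
    rw [B.symm23, B.symm12, ← pL_apply B (B.A + t • y), map_add, map_smul, ← iL_apply, map_add,
      map_smul, iL_apply, iL_apply, pL_apply, pL_apply, B.symm12, B.symm23, B.symm12 (B.pb y),
      B.symm23 v (B.pb y), h1 x _ _ B.nef_A hz, zero_add, smul_eq_mul] at h3
    exact (mul_eq_zero.mp h3).resolve_left ht.ne'
  obtain ⟨t, ht, hz⟩ := B.amp z
  have h3 := h2 x y _ hz
  rw [B.symm34, B.symm23, B.symm12, ← pL_apply B (B.A + t • z), map_add, map_smul, ← iL_apply,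
    map_add, map_smul, iL_apply, iL_apply, pL_apply, pL_apply, B.symm12, B.symm23, B.symm34,
    B.symm12 (B.pb z), B.symm23 v (B.pb z), B.symm34 v _ (B.pb z), h2 x y _ B.nef_A, zero_add,
    smul_eq_mul] at h3
  exact (mul_eq_zero.mp h3).resolve_left ht.ne'

theorem prime_pos (G : B.D) (hG : B.X G) :
    0 < B.I (B.pb (B.cl G)) (B.pb B.A) (B.pb B.A) (B.pb B.A) := by
  by_contra hcon
  have p : ∀ a b c, B.Nef a → B.Nef b → B.Nef c → 0 ≤ B.I (B.pb (B.cl G)) a b c := B.prime G hG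
  have h0 := le_antisymm (not_lt.mp hcon) (p _ _ _ B.nef_A B.nef_A B.nef_A)
  -- `v.x.b.c = 0` if `v.A.b.c = 0`
  have key : ∀ x b c, B.Nef (B.pb x) → B.Nef b → B.Nef c →
      B.I (B.pb (B.cl G)) (B.pb B.A) b c = 0 → B.I (B.pb (B.cl G)) (B.pb x) b c = 0 :=
    fun x b c hx hb hc h => by
    obtain ⟨t, ht, hx'⟩ := B.amp (-x)
    have h3 := p _ _ _ hx' hb hc
    rw [B.symm12, ← pL_apply, map_add, map_smul, map_neg, ← iL_apply, map_add, map_smul, map_neg,
      iL_apply, iL_apply, pL_apply, pL_apply, B.symm12, B.symm12 (B.pb x), h, zero_add,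
      smul_eq_mul, mul_neg] at h3
    exact le_antisymm (nonpos_of_mul_nonpos_right (neg_nonneg.mp h3) ht) (p _ _ _ hx hb hc)
  refine B.ne G hG (B.nd _ (B.num_of_nef _ fun x y z hx hy hz => ?_))
  have h1 := key x _ _ hx B.nef_A B.nef_A h0
  rw [B.symm23] at h1
  have h2 := key y _ _ hy hx B.nef_A h1
  rw [B.symm23, B.symm34, B.symm23] at h2
  have h3 := key z _ _ hz hx hy (by rw [← h2])
  rw [B.symm23, B.symm34] at h3
  exact h3

/-- the pull back of a divisor of `X` with real coefficients; the sign is the one of `pull` -/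
theorem exists_pull : ∃ F : B.D → B.V, ∀ G, B.X G → B.tr (F G) = 0 ∧ (∀ E, B.o (F G) E ≤ 0) ∧
    B.o (F G) G = -1 ∧ (∀ G', B.X G' → G' ≠ G → B.o (F G) G' = 0) ∧
    ∀ a b c, B.I (F G) a b c = B.I (B.pb (B.cl G)) a b c := by
  classical
  have h : ∀ G, ∃ z : B.V, B.X G → B.tr z = 0 ∧ (∀ E, B.o z E ≤ 0) ∧
    B.o z G = -1 ∧ (∀ G', B.X G' → G' ≠ G → B.o z G' = 0) ∧
    ∀ a b c, B.I z a b c = B.I (B.pb (B.cl G)) a b c := fun G => by
    by_cases hG : B.X G
    · obtain ⟨z, hz⟩ := B.pull G hG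
      exact ⟨z, fun _ => hz⟩
    · exact ⟨0, fun h => absurd h hG⟩
  exact ⟨fun G => (h G).choose, fun G hG => (h G).choose_spec hG⟩

/-- the pull back of a finite sum of prime divisors of `X` -/
theorem pull_sum {F : B.D → B.V} (hF : ∀ G, B.X G → B.tr (F G) = 0 ∧ (∀ E, B.o (F G) E ≤ 0) ∧
    B.o (F G) G = -1 ∧ (∀ G', B.X G' → G' ≠ G → B.o (F G) G' = 0) ∧
    ∀ a b c, B.I (F G) a b c = B.I (B.pb (B.cl G)) a b c) (S : Finset B.D) (hS : ∀ G ∈ S, B.X G)
    (n : B.D → ℝ) :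
    B.tr (∑ G ∈ S, n G • F G) = 0 ∧ (∀ G ∈ S, B.o (∑ G ∈ S, n G • F G) G = -n G) ∧
      (∀ G, B.X G → G ∉ S → B.o (∑ G ∈ S, n G • F G) G = 0) ∧
      ∀ a b c, B.I (∑ G ∈ S, n G • F G) a b c = B.I (B.pb (∑ G ∈ S, n G • B.cl G)) a b c := by
  classical
  refine ⟨?_, ?_, ?_, ?_⟩
  · rw [← trL_apply, map_sum]
    exact Finset.sum_eq_zero fun G hG => by
      rw [map_smul, trL_apply, (hF G (hS G hG)).1, smul_zero]
  · intro G hG
    rw [← oL_apply, map_sum, Finset.sum_eq_single G]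
    · rw [map_smul, oL_apply, (hF G (hS G hG)).2.2.1, smul_eq_mul, mul_neg_one]
    · intro G' hG' hne
      rw [map_smul, oL_apply, (hF G' (hS G' hG')).2.2.2.1 G (hS G hG) (Ne.symm hne), smul_zero]
    · exact fun h => absurd hG h
  · intro G hG hGS
    rw [← oL_apply, map_sum]
    refine Finset.sum_eq_zero fun G' hG' => ?_
    rw [map_smul, oL_apply, (hF G' (hS G' hG')).2.2.2.1 G hG, smul_zero]
    rintro rfl
    exact hGS hG'
  · intro a b c
    rw [← iL_apply, map_sum, ← pL_apply, map_sum, ← iL_apply, map_sum]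
    refine Finset.sum_congr rfl fun G hG => ?_
    rw [map_smul, map_smul, map_smul, iL_apply, (hF G (hS G hG)).2.2.2.2 a b c]
    rfl

/-- the pull back of a numerically trivial divisor on `X` with real coefficients -/
theorem prin (n : B.D →₀ ℝ) (hn : ∀ G ∈ n.support, B.X G)
    (h0 : (n.sum fun G t => t • B.cl G) = 0) :
    ∃ z, B.tr z = 0 ∧ (∀ G, B.X G → B.o z G = n G) ∧ ∀ v, B.Nef v → B.Nef (v + z) := by
  classical
  obtain ⟨F, hF⟩ := B.exists_pull
  obtain ⟨h1, h2, h3, h4⟩ := B.pull_sum hF n.support hn n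
  refine ⟨-∑ G ∈ n.support, n G • F G, ?_, fun G hG => ?_, fun v hv => ?_⟩
  · rw [← trL_apply, map_neg, trL_apply, h1, neg_zero]
  · rw [← oL_apply, map_neg, oL_apply]
    by_cases hGn : G ∈ n.support
    · rw [h2 G hGn, neg_neg]
    · rw [h3 G hG hGn, neg_zero]
      exact (Finsupp.notMem_support_iff.mp hGn).symm
  · refine B.nef_num v _ hv fun x y w => ?_
    have h5 : (∑ G ∈ n.support, n G • B.cl G) = 0 := h0
    rw [← iL_apply, map_neg, iL_apply, h4, h5, ← pL_apply, map_zero, ← iL_apply, map_zero, neg_zero]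

/-- if the numbers `v.a.b.c` are zero for nef classes then they are zero for all classes -/
theorem I_zero_of_nef (v : B.V) (h : ∀ a b c, B.Nef a → B.Nef b → B.Nef c → B.I v a b c = 0)
    (a b c : B.V) : B.I v a b c = 0 := by
  have h1 : ∀ a b c, B.Nef b → B.Nef c → B.I v a b c = 0 := fun a b c hb hc => by
    obtain ⟨a', a'', h', h'', rfl⟩ := B.gen a
    rw [B.symm12, ← iL_apply, map_sub, iL_apply, iL_apply, B.symm12, B.symm12 a'', h _ _ _ h' hb hc,
      h _ _ _ h'' hb hc, sub_zero]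
  have h2 : ∀ a b c, B.Nef c → B.I v a b c = 0 := fun a b c hc => by
    obtain ⟨b', b'', h', h'', rfl⟩ := B.gen b
    rw [B.symm23, B.symm12, ← iL_apply, map_sub, iL_apply, iL_apply, B.symm12, B.symm23,
      B.symm12 b'', B.symm23 v b'', h1 _ _ _ h' hc, h1 _ _ _ h'' hc, sub_zero]
  obtain ⟨c', c'', h', h'', rfl⟩ := B.gen c
  rw [B.symm34, B.symm23, B.symm12, ← iL_apply, map_sub, iL_apply, iL_apply, B.symm12, B.symm23,
    B.symm34, B.symm12 c'', B.symm23 v c'', B.symm34 v a c'', h2 _ _ _ h', h2 _ _ _ h'', sub_zero]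

/-- an effective b-divisor which is not zero -/
theorem pos (v : B.V) (h : B.tr v = 0) (hv : ∀ E, B.o v E ≤ 0) (h0 : v ≠ 0) :
    ∃ a b c, 0 < B.I v a b c := by
  by_contra hcon
  have hI : ∀ a b c, B.I v a b c = 0 := B.I_zero_of_nef v fun a b c ha hb hc =>
    le_antisymm (not_lt.mp fun h => hcon ⟨a, b, c, h⟩) (B.eff v h hv a b c ha hb hc)
  have hc : B.cx v = 0 := B.nd _ fun x y z => by rw [← B.proj]; exact hI _ _ _
  refine h0 (B.zero v h (fun G hG => ?_) hI)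
  let l : (Fin r → ℝ) →ₗ[ℝ] ℝ := (B.iL (B.pb B.A) (B.pb B.A) (B.pb B.A)).comp B.pL
  have hl : ∀ G, B.X G → 0 < l (B.cl G) := fun G hG => B.prime_pos G hG
  have hs := (B.sum v).mapL l.toContinuousLinearMap
  have hs' : HasSum (fun G : {G // B.X G} => -(B.o v G) * l (B.cl G)) 0 := by
    have h1 := hs.neg
    have h2 : -(LinearMap.toContinuousLinearMap l (B.tr v - B.cx v)) = 0 := by
      rw [h, hc, sub_zero, map_zero, neg_zero]
    rw [h2] at h1
    refine h1.congr_fun fun G => ?_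
    show _ = -l (B.o v G • B.cl G)
    rw [map_smul, smul_eq_mul, neg_mul]
  have h3 := (hasSum_zero_iff_of_nonneg fun G : {G // B.X G} =>
    mul_nonneg (neg_nonneg.mpr (hv G)) (hl G G.2).le).mp hs'
  have h4 := congrFun h3 ⟨G, hG⟩
  have h5 : -(B.o v G) * l (B.cl G) = 0 := h4
  rcases mul_eq_zero.mp h5 with h6 | h6
  · exact neg_eq_zero.mp h6
  · exact absurd h6 (hl G hG).ne'

end BCl

end Pool.Agent.H15.XF
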