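import Pool.Agent.H60.BC.DefsN

/-! Consequences of the fields of `BCl`. -/

namespace Pool.Agent.H54.XN

variable {r m : ℕ}

/-- the class on `X` of the b-class of a pair -/
noncomputable def Pairs.cx (B : Pairs r) (v : B.V) : Fin r → ℝ :=
  B.tr v - ∑' G : {G // B.X G}, B.o v G • B.cl G

namespace BCl

variable (B : BCl r m)

theorem I_lin : ∀ s, IsLinearMap ℝ fun a => B.I (a ::ₘ s) := B.cls.I_lin

theorem I_card : ∀ s, Multiset.card s ≠ m + 4 → B.I s = 0 := B.cls.I_card

theorem nef_add : ∀ a b, B.Nef a → B.Nef b → B.Nef (a + b) := B.cls.nef_add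

theorem nef_smul : ∀ (t : ℝ) a, 0 ≤ t → B.Nef a → B.Nef (t • a) := B.cls.nef_smul

theorem nef_num : ∀ a b, B.Nef a → (∀ s, B.I (b ::ₘ s) = 0) → B.Nef (a + b) := B.cls.nef_num

theorem amp : ∀ x, ∃ t : ℝ, 0 < t ∧ B.Nef (B.pb (B.A + t • x)) := B.cls.amp

theorem gen : ∀ v, ∃ a b, B.Nef a ∧ B.Nef b ∧ v = a - b := B.cls.gen

theorem nonneg : ∀ s, (∀ a ∈ s, B.Nef a) → 0 ≤ B.I s := B.cls.nonneg

theorem eff : ∀ v, B.tr v = 0 → (∀ E, B.o v E ≤ 0) → ∀ s, (∀ a ∈ s, B.Nef a) →
    0 ≤ B.I (v ::ₘ s) := B.cls.eff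

theorem summable : ∀ v, Summable fun G : {G // B.X G} => B.o v G • B.cl G := B.cls.summable

theorem proj : ∀ v (s : Multiset (Fin r → ℝ)), B.I (v ::ₘ s.map B.pb) =
    B.I (B.pb (B.cx v) ::ₘ s.map B.pb) := B.cls.proj

theorem neg : ∀ v, B.Nef v → (∀ G, B.X G → 0 ≤ B.o v G) → ∀ E, 0 ≤ B.o v E := B.cls.neg

theorem nd : ∀ c, (∀ s : Multiset (Fin r → ℝ), B.I (B.pb c ::ₘ s.map B.pb) = 0) → c = 0 := B.cls.nd

theorem pull : ∀ G, B.X G → ∃ z, B.tr z = 0 ∧ (∀ E, B.o z E ≤ 0) ∧ B.o z G = -1 ∧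
    (∀ G', B.X G' → G' ≠ G → B.o z G' = 0) ∧ ∀ s, B.I (z ::ₘ s) = B.I (B.pb (B.cl G) ::ₘ s) :=
  B.cls.pull

theorem ne : ∀ G, B.X G → B.cl G ≠ 0 := B.cls.ne

theorem dist : ∀ G G', B.X G → B.X G' → G ≠ G' → 0 ≤ B.I (B.pb (B.cl G) ::ₘ B.pb (B.cl G') ::ₘ
    Multiset.replicate (m + 2) (B.pb B.A)) := B.cls.dist

theorem index : ∀ (s : Multiset B.V) (u v : B.V), (∀ a ∈ s, B.Nef a) → 0 < B.I (v ::ₘ v ::ₘ s) →
    B.I (u ::ₘ v ::ₘ s) = 0 → B.I (u ::ₘ u ::ₘ s) ≤ 0 := B.cls.index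

theorem min : ∀ v w, B.Nef v → B.Nef w → B.tr v = B.tr w →
    ∃ u, B.Nef u ∧ B.tr u = B.tr v ∧ ∀ E, B.o u E = Min.min (B.o v E) (B.o w E) := B.cls.min

theorem siu : ∀ a b, B.Nef a → B.Nef b →
    (m + 4) * B.I (b ::ₘ Multiset.replicate (m + 3) a) < B.I (Multiset.replicate (m + 4) a) →
    ∃ v, B.Nef v ∧ B.tr v = B.tr a - B.tr b ∧ ∀ E, B.o a E - B.o b E ≤ B.o v E := B.cls.siu

instance : TopologicalSpace B.V := TopologicalSpace.induced (fun v => (B.tr v, B.o v)) inferInstance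

theorem ext' (v w : B.V) (h : B.tr v = B.tr w) (h' : B.o v = B.o w) : v = w :=
  Subtype.ext (Prod.ext h h')

theorem emb : Topology.IsEmbedding fun v : B.V => (B.tr v, B.o v) where
  eq_induced := rfl
  injective v w h := B.ext' v w (congrArg Prod.fst h) (congrArg Prod.snd h)

theorem compact (K : Set (Fin r → ℝ)) (w : B.V) (hK : IsCompact K) :
    IsCompact {v : B.V | B.Nef v ∧ B.tr v ∈ K ∧ ∀ E, B.o w E ≤ B.o v E} := by
  rw [B.emb.isCompact_iff]
  convert B.cls.compact K w hK using 1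
  ext p
  constructor
  · rintro ⟨v, ⟨h1, h2, h3⟩, rfl⟩
    exact ⟨v, h1, h2, h3, rfl⟩
  · rintro ⟨v, h1, h2, h3, rfl⟩
    exact ⟨v, ⟨h1, h2, h3⟩, rfl⟩

instance : T2Space B.V := B.emb.t2Space

/-- the group of the pairs -/
abbrev grp : AddCommGroup B.V := inferInstance

/-- the vector space of the pairs -/
abbrev mod : Module ℝ B.V := inferInstance

theorem pb_lin : IsLinearMap ℝ B.pb where
  map_add _ _ := B.ext' _ _ rfl (add_zero (0 : B.D → ℝ)).symm
  map_smul c _ := B.ext' _ _ rfl (smul_zero c).symm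

theorem tr_lin : IsLinearMap ℝ B.tr where
  map_add _ _ := rfl
  map_smul _ _ := rfl

theorem o_lin : IsLinearMap ℝ B.o where
  map_add _ _ := rfl
  map_smul _ _ := rfl

theorem tr_pb (x : Fin r → ℝ) : B.tr (B.pb x) = x := rfl

theorem o_pb (x : Fin r → ℝ) : B.o (B.pb x) = 0 := rfl

theorem ext (v : B.V) (h : B.tr v = 0) (h' : B.o v = 0) : v = 0 := B.ext' v 0 h h'

theorem sum (v : B.V) : HasSum (fun G : {G // B.X G} => B.o v G • B.cl G) (B.tr v - B.cx v) := by
  have h : B.tr v - B.cx v = ∑' G : {G // B.X G}, B.o v G • B.cl G := by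
    rw [Pairs.cx, sub_sub_cancel]
  rw [h]
  exact (B.summable v).hasSum

/-- the first component, a linear map -/
def trL : B.V →ₗ[ℝ] (Fin r → ℝ) := IsLinearMap.mk' _ B.tr_lin

/-- the coefficient of `E`, a linear map -/
def oL (E : B.D) : B.V →ₗ[ℝ] ℝ := (LinearMap.proj E).comp (IsLinearMap.mk' _ B.o_lin)

/-- the intersection number with `s`, a linear map -/
def iL (s : Multiset B.V) : B.V →ₗ[ℝ] ℝ := IsLinearMap.mk' _ (B.I_lin s)

/-- the pair `(x, 0)`, a linear map -/
def pL : (Fin r → ℝ) →ₗ[ℝ] B.V := IsLinearMap.mk' _ B.pb_lin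

theorem trL_apply (v : B.V) : B.trL v = B.tr v := rfl

theorem oL_apply (E : B.D) (v : B.V) : B.oL E v = B.o v E := rfl

theorem iL_apply (s : Multiset B.V) (v : B.V) : B.iL s v = B.I (v ::ₘ s) := rfl

theorem pL_apply (x : Fin r → ℝ) : B.pL x = B.pb x := rfl

theorem cont_tr : Continuous B.tr := continuous_fst.comp B.emb.continuous

theorem cont_o (E : B.D) : Continuous fun v => B.o v E :=
  (continuous_apply E).comp (continuous_snd.comp B.emb.continuous)

theorem nef_A : B.Nef (B.pb B.A) := by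
  obtain ⟨t, -, h⟩ := B.amp 0
  rwa [smul_zero, add_zero] at h

theorem ample (x : Fin r → ℝ) : ∃ t : ℝ, B.Nef (B.pb (t • B.A + x)) := by
  obtain ⟨t, ht, h⟩ := B.amp x
  refine ⟨t⁻¹, ?_⟩
  have h1 := B.nef_smul t⁻¹ _ (inv_nonneg.mpr ht.le) h
  rwa [← pL_apply, ← map_smul, smul_add, smul_smul, inv_mul_cancel₀ ht.ne', one_smul,
    pL_apply] at h1

theorem nef_zero' : B.Nef 0 := by
  have h := B.nef_smul 0 _ le_rfl B.nef_A
  rwa [zero_smul] at h

/-- a b-divisor which is exceptional over `X` and numerically trivial is zero -/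
theorem zero (v : B.V) (h : B.tr v = 0) (hX : ∀ G, B.X G → B.o v G = 0)
    (hI : ∀ s, B.I (v ::ₘ s) = 0) : v = 0 := by
  have h1 : B.Nef v := by
    have h := B.nef_num 0 v B.nef_zero' hI
    rwa [zero_add] at h
  have h2 : B.Nef (-v) := by
    have h := B.nef_num 0 (-v) B.nef_zero' fun s => by
      rw [← iL_apply, map_neg, iL_apply, hI s, neg_zero]
    rwa [zero_add] at h
  refine B.ext v h (funext fun E => le_antisymm ?_ ?_)
  · have h3 := B.neg (-v) h2 (fun G hG => by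
      rw [← oL_apply, map_neg, oL_apply, hX G hG, neg_zero]) E
    rw [← oL_apply, map_neg, oL_apply] at h3
    exact neg_nonneg.mp h3
  · exact B.neg v h1 (fun G hG => (hX G hG).ge) E

/-- a prime divisor of `X` is effective -/
theorem prime (G : B.D) (hG : B.X G) (s : Multiset B.V) (hs : ∀ a ∈ s, B.Nef a) :
    0 ≤ B.I (B.pb (B.cl G) ::ₘ s) := by
  obtain ⟨z, h1, h2, -, -, h5⟩ := B.pull G hG
  rw [← h5]
  exact B.eff z h1 h2 s hs

/-- if the numbers `v.s` are zero for multisets `s` of nef classes of `X`, then for all classes of `X` -/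
theorem num_of_nef (v : B.V) (h : ∀ s : Multiset (Fin r → ℝ), (∀ x ∈ s, B.Nef (B.pb x)) →
    B.I (v ::ₘ s.map B.pb) = 0) (s : Multiset (Fin r → ℝ)) : B.I (v ::ₘ s.map B.pb) = 0 := by
  have h1 : ∀ s t : Multiset (Fin r → ℝ), (∀ x ∈ t, B.Nef (B.pb x)) →
      B.I (v ::ₘ (s.map B.pb + t.map B.pb)) = 0 := by
    intro s
    induction s using Multiset.induction_on with
    | empty => intro t ht; rw [Multiset.map_zero, zero_add]; exact h t ht
    | cons x s ih =>
      intro t ht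
      obtain ⟨a, ha, hx⟩ := B.amp x
      have e1 := ih ((B.A + a • x) ::ₘ t) (fun y hy => by
        rcases Multiset.mem_cons.mp hy with rfl | hy
        · exact hx
        · exact ht y hy)
      have e2 := ih (B.A ::ₘ t) (fun y hy => by
        rcases Multiset.mem_cons.mp hy with rfl | hy
        · exact B.nef_A
        · exact ht y hy)
      rw [Multiset.map_cons, Multiset.add_cons, Multiset.cons_swap] at e1 e2
      rw [← pL_apply, map_add, map_smul, ← iL_apply, map_add, map_smul, iL_apply, iL_apply,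
        pL_apply, pL_apply, e2, zero_add, smul_eq_mul] at e1
      rw [Multiset.map_cons, Multiset.cons_add, Multiset.cons_swap]
      exact (mul_eq_zero.mp e1).resolve_left ha.ne'
  have h2 := h1 s 0 (fun x hx => absurd hx (Multiset.notMem_zero x))
  rwa [Multiset.map_zero, add_zero] at h2

theorem prime_pos (G : B.D) (hG : B.X G) :
    0 < B.I (B.pb (B.cl G) ::ₘ Multiset.replicate (m + 3) (B.pb B.A)) := by
  by_contra hcon
  have h0 := le_antisymm (not_lt.mp hcon) (B.prime G hG _ fun a ha => by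
    rw [Multiset.eq_of_mem_replicate ha]; exact B.nef_A)
  have h1 : ∀ (s : Multiset (Fin r → ℝ)) (j : ℕ), (∀ x ∈ s, B.Nef (B.pb x)) →
      Multiset.card s + j = m + 3 →
      B.I (B.pb (B.cl G) ::ₘ (s.map B.pb + Multiset.replicate j (B.pb B.A))) = 0 := by
    intro s
    induction s using Multiset.induction_on with
    | empty =>
      intro j _ hj
      rw [Multiset.card_zero, zero_add] at hj
      rw [Multiset.map_zero, zero_add, hj]
      exact h0
    | cons x s ih =>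
      intro j hs hj
      have hs' : ∀ y ∈ s, B.Nef (B.pb y) := fun y hy => hs y (Multiset.mem_cons_of_mem hy)
      have hT : ∀ a ∈ s.map B.pb + Multiset.replicate j (B.pb B.A), B.Nef a := fun a ha => by
        rcases Multiset.mem_add.mp ha with ha | ha
        · obtain ⟨y, hy, rfl⟩ := Multiset.mem_map.mp ha
          exact hs' y hy
        · rw [Multiset.eq_of_mem_replicate ha]; exact B.nef_A
      have e1 := ih (j + 1) hs' (by rw [Multiset.card_cons] at hj; omega)
      rw [Multiset.replicate_succ, Multiset.add_cons, Multiset.cons_swap] at e1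
      obtain ⟨t, ht, hx⟩ := B.amp (-x)
      have e2 := B.prime G hG (B.pb (B.A + t • -x) ::ₘ
        (s.map B.pb + Multiset.replicate j (B.pb B.A))) (fun a ha => by
          rcases Multiset.mem_cons.mp ha with rfl | ha
          · exact hx
          · exact hT a ha)
      have e3 := B.prime G hG (B.pb x ::ₘ
        (s.map B.pb + Multiset.replicate j (B.pb B.A))) (fun a ha => by
          rcases Multiset.mem_cons.mp ha with rfl | ha
          · exact hs _ (Multiset.mem_cons_self _ _)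
          · exact hT a ha)
      rw [Multiset.cons_swap, ← pL_apply, map_add, map_smul, map_neg, ← iL_apply, map_add, map_smul,
        map_neg, iL_apply, iL_apply, pL_apply, pL_apply, e1, zero_add, smul_eq_mul, mul_neg] at e2
      rw [Multiset.cons_swap] at e3
      rw [Multiset.map_cons, Multiset.cons_add, Multiset.cons_swap]
      exact le_antisymm (nonpos_of_mul_nonpos_right (neg_nonneg.mp e2) ht) e3
  refine B.ne G hG (B.nd _ (B.num_of_nef _ fun s hs => ?_))
  by_cases hc : Multiset.card s = m + 3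
  · have h2 := h1 s 0 hs (by rw [hc])
    rwa [Multiset.replicate_zero, add_zero] at h2
  · refine B.I_card _ ?_
    rw [Multiset.card_cons, Multiset.card_map]
    omega

/-- the pull back of a divisor of `X` with real coefficients; the sign is the one of `pull` -/
theorem exists_pull : ∃ F : B.D → B.V, ∀ G, B.X G → B.tr (F G) = 0 ∧ (∀ E, B.o (F G) E ≤ 0) ∧
    B.o (F G) G = -1 ∧ (∀ G', B.X G' → G' ≠ G → B.o (F G) G' = 0) ∧
    ∀ s, B.I (F G ::ₘ s) = B.I (B.pb (B.cl G) ::ₘ s) := by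
  classical
  have h : ∀ G, ∃ z : B.V, B.X G → B.tr z = 0 ∧ (∀ E, B.o z E ≤ 0) ∧
    B.o z G = -1 ∧ (∀ G', B.X G' → G' ≠ G → B.o z G' = 0) ∧
    ∀ s, B.I (z ::ₘ s) = B.I (B.pb (B.cl G) ::ₘ s) := fun G => by
    by_cases hG : B.X G
    · obtain ⟨z, hz⟩ := B.pull G hG
      exact ⟨z, fun _ => hz⟩
    · exact ⟨0, fun h => absurd h hG⟩
  exact ⟨fun G => (h G).choose, fun G hG => (h G).choose_spec hG⟩

/-- the pull back of a finite sum of prime divisors of `X` -/
theorem pull_sum {F : B.D → B.V} (hF : ∀ G, B.X G → B.tr (F G) = 0 ∧ (∀ E, B.o (F G) E ≤ 0) ∧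
    B.o (F G) G = -1 ∧ (∀ G', B.X G' → G' ≠ G → B.o (F G) G' = 0) ∧
    ∀ s, B.I (F G ::ₘ s) = B.I (B.pb (B.cl G) ::ₘ s)) (S : Finset B.D) (hS : ∀ G ∈ S, B.X G)
    (n : B.D → ℝ) :
    B.tr (∑ G ∈ S, n G • F G) = 0 ∧ (∀ G ∈ S, B.o (∑ G ∈ S, n G • F G) G = -n G) ∧
      (∀ G, B.X G → G ∉ S → B.o (∑ G ∈ S, n G • F G) G = 0) ∧
      ∀ s, B.I ((∑ G ∈ S, n G • F G) ::ₘ s) = B.I (B.pb (∑ G ∈ S, n G • B.cl G) ::ₘ s) := by
  classical
  refine ⟨?_, ?_, ?_, ?_⟩
  · rw [← trL_apply, map_sum]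
    exact Finset.sum_eq_zero fun G hG => by
      rw [map_smul, trL_apply, (hF G (hS G hG)).1, smul_zero]
  · intro G hG
    rw [← oL_apply, map_sum, Finset.sum_eq_single G]
    · rw [map_smul, oL_apply, (hF G (hS G hG)).2.2.1, smul_eq_mul, mul_neg_one]
    · intro G' hG' hne
      rw [map_smul, oL_apply, (hF G' (hS G' hG')).2.2.2.1 G (hS G hG) (Ne.symm hne), smul_zero]
    · exact fun h => absurd hG h
  · intro G hG hGS
    rw [← oL_apply, map_sum]
    refine Finset.sum_eq_zero fun G' hG' => ?_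
    rw [map_smul, oL_apply, (hF G' (hS G' hG')).2.2.2.1 G hG, smul_zero]
    rintro rfl
    exact hGS hG'
  · intro s
    rw [← iL_apply, map_sum, ← pL_apply, map_sum, ← iL_apply, map_sum]
    refine Finset.sum_congr rfl fun G hG => ?_
    rw [map_smul, map_smul, map_smul, iL_apply, (hF G (hS G hG)).2.2.2.2 s]
    rfl

/-- the pull back of a numerically trivial divisor on `X` with real coefficients -/
theorem prin (n : B.D →₀ ℝ) (hn : ∀ G ∈ n.support, B.X G)
    (h0 : (n.sum fun G t => t • B.cl G) = 0) :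
    ∃ z, B.tr z = 0 ∧ (∀ G, B.X G → B.o z G = n G) ∧ ∀ v, B.Nef v → B.Nef (v + z) := by
  classical
  obtain ⟨F, hF⟩ := B.exists_pull
  obtain ⟨h1, h2, h3, h4⟩ := B.pull_sum hF n.support hn n
  refine ⟨-∑ G ∈ n.support, n G • F G, ?_, fun G hG => ?_, fun v hv => ?_⟩
  · rw [← trL_apply, map_neg, trL_apply, h1, neg_zero]
  · rw [← oL_apply, map_neg, oL_apply]
    by_cases hGn : G ∈ n.support
    · rw [h2 G hGn, neg_neg]
    · rw [h3 G hG hGn, neg_zero]
      exact (Finsupp.notMem_support_iff.mp hGn).symm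
  · refine B.nef_num v _ hv fun s => ?_
    have h5 : (∑ G ∈ n.support, n G • B.cl G) = 0 := h0
    rw [← iL_apply, map_neg, iL_apply, h4, h5, ← pL_apply, map_zero, ← iL_apply, map_zero, neg_zero]

/-- if the numbers `v.s` are zero for nef classes `s` then they are zero for all `s` -/
theorem I_zero_of_nef (v : B.V) (h : ∀ s, (∀ a ∈ s, B.Nef a) → B.I (v ::ₘ s) = 0) (s : Multiset B.V) :
    B.I (v ::ₘ s) = 0 := by
  have key : ∀ s t : Multiset B.V, (∀ a ∈ t, B.Nef a) → B.I (v ::ₘ (s + t)) = 0 := fun s => by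
    induction s using Multiset.induction_on with
    | empty => intro t ht; rw [zero_add]; exact h t ht
    | cons a s ih =>
        intro t ht
        obtain ⟨b, c, hb, hc, rfl⟩ := B.gen a
        have h1 : ∀ x : B.V, B.Nef x → B.I (x ::ₘ (v ::ₘ (s + t))) = 0 := fun x hx => by
          rw [Multiset.cons_swap, ← Multiset.add_cons]
          exact ih (x ::ₘ t) fun a ha => by
            rcases Multiset.mem_cons.mp ha with rfl | ha
            exacts [hx, ht a ha]
        rw [Multiset.cons_add, Multiset.cons_swap, ← iL_apply, map_sub, iL_apply, iL_apply, h1 b hb,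
          h1 c hc, sub_zero]
  have h1 := key s 0 (by simp)
  rwa [add_zero] at h1

/-- an effective b-divisor which is not zero -/
theorem pos (v : B.V) (h : B.tr v = 0) (hv : ∀ E, B.o v E ≤ 0) (h0 : v ≠ 0) :
    ∃ s, 0 < B.I (v ::ₘ s) := by
  by_contra hcon
  have hI : ∀ s, B.I (v ::ₘ s) = 0 := B.I_zero_of_nef v fun s hs =>
    le_antisymm (not_lt.mp fun h => hcon ⟨s, h⟩) (B.eff v h hv s hs)
  have hc : B.cx v = 0 := B.nd _ fun s => by rw [← B.proj]; exact hI _
  refine h0 (B.zero v h (fun G hG => ?_) hI)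
  let l : (Fin r → ℝ) →ₗ[ℝ] ℝ := (B.iL (Multiset.replicate (m + 3) (B.pb B.A))).comp B.pL
  have hl : ∀ G, B.X G → 0 < l (B.cl G) := fun G hG => B.prime_pos G hG
  have hs := (B.sum v).mapL l.toContinuousLinearMap
  have hs' : HasSum (fun G : {G // B.X G} => -(B.o v G) * l (B.cl G)) 0 := by
    have h1 := hs.neg
    have h2 : -(LinearMap.toContinuousLinearMap l (B.tr v - B.cx v)) = 0 := by
      rw [h, hc, sub_zero, map_zero, neg_zero]
    rw [h2] at h1
    refine h1.congr_fun fun G => ?_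
    show _ = -l (B.o v G • B.cl G)
    rw [map_smul, smul_eq_mul, neg_mul]
  have h3 := (hasSum_zero_iff_of_nonneg fun G : {G // B.X G} =>
    mul_nonneg (neg_nonneg.mpr (hv G)) (hl G G.2).le).mp hs'
  have h4 := congrFun h3 ⟨G, hG⟩
  have h5 : -(B.o v G) * l (B.cl G) = 0 := h4
  rcases mul_eq_zero.mp h5 with h6 | h6
  · exact neg_eq_zero.mp h6
  · exact absurd h6 (hl G hG).ne'

end BCl

end Pool.Agent.H54.XN
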